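import Pool.Agent.Q66.RX.Stm

/-!
Project RX, job BDD: totally bounded families and families in a compact set in a locally compact
group, and the group of the precompact families is open.
-/

set_option autoImplicit false

namespace Pool.Agent.Q135.RX

open Pool.Agent.Q66.RX
open Topology Filter Set

theorem t_BDD : S_BDD := by
  intro I X _ _ _ _
  have hc : CompleteSpace X := IsRightUniformGroup.completeSpace_of_weaklyLocallyCompactSpace
  have key : ∀ x : I → X, TotallyBounded (range x) ↔ ∃ K : Set X, IsCompact K ∧ ∀ i, x i ∈ K := by
    intro x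
    constructor
    · intro h
      refine ⟨closure (range x), ?_, fun i => subset_closure (mem_range_self i)⟩
      exact h.closure.isCompact_of_isClosed isClosed_closure
    · rintro ⟨K, hK, hx⟩
      refine hK.totallyBounded.subset ?_
      rintro _ ⟨i, rfl⟩
      exact hx i
  refine ⟨key, ?_⟩
  obtain ⟨K, hK, hK1⟩ := exists_compact_mem_nhds (1 : X)
  apply Subgroup.isOpen_of_mem_nhds (linf I X) (g := 1)
  have hb : {f : I → X | ∀ i, f i ∈ K} ∈ 𝓝 (1 : UniformFun I X) :=
    (UniformFun.hasBasis_nhds_one (α := I) (G := X)).mem_of_mem hK1
  refine mem_of_superset hb ?_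
  intro f hf
  change TotallyBounded (range (UniformFun.toFun f))
  exact (key _).2 ⟨K, hK, fun i => hf i⟩

end Pool.Agent.Q135.RX
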